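import Pool.Agent.Lib.MP_e74eef_lc.Final

/-!
# k-Click Elimination-Variant Clickomania is W[2]-hard

There is a polynomial-time reduction from Dominating Set with parameter `k` to the elimination
variant with parameter `k + 5`; it produces boards with five colours and no empty column. Hence
every problem in W[2] has an fpt-reduction to the elimination variant, and the elimination variant
is not in W[1] unless W[2] is contained in W[1].
-/

namespace Pool.Agent.Results.MP_e74eef_lc.Elimination

open Pool.Agent.Lib.MP_e74eef_lc

theorem result :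
    (∃ f : (ℕ × List (ℕ × ℕ)) × ℕ → Board × ℕ,
      Nonempty (Turing.TM2ComputableInPolyTime DominatingSet.code Elimination.code f) ∧
      (∀ x, DominatingSet.Yes x ↔ Elimination.Yes (f x)) ∧
      (∀ x, (f x).2 = x.2 + 5) ∧
      ∀ x, ∀ col ∈ (f x).1, col ≠ [] ∧ ∀ a ∈ col, a < 5) ∧
    (∀ P ∈ W2, FptReducible P Elimination) ∧
    (Elimination ∈ W1 → W2 ⊆ W1) := by
  refine ⟨⟨toElim, tm_toElim, fun x => (outBoard_iff x).symm, fun _ => rfl,
    fun x col hc => outBoard_mem hc⟩, ?_, ?_⟩
  · intro P hP
    exact FptReducible.trans hP fpt_toElim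
  · intro h P hP
    exact FptReducible.trans (FptReducible.trans hP fpt_toElim) h

end Pool.Agent.Results.MP_e74eef_lc.Elimination
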